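import Mathlib
import Pool.Agent.Lib.helper4.PsiChain

set_option autoImplicit false

namespace Pool.Agent.Results.MP_5c431f_gt.NotPreimage

open Set Topology

/-- A perfect map: continuous, closed, surjective, with compact fibres. -/
def Perfect {X Y : Type} [TopologicalSpace X] [TopologicalSpace Y] (f : X → Y) : Prop :=
  Continuous f ∧ IsClosedMap f ∧ Function.Surjective f ∧ ∀ y, IsCompact (f ⁻¹' {y})

/-- A developable space: there are open covers `G n` such that the stars `st(y, G n)` form a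
neighbourhood base at each point `y`. -/
def Developable (Y : Type) [TopologicalSpace Y] : Prop :=
  ∃ G : ℕ → Set (Set Y), (∀ n, (∀ U ∈ G n, IsOpen U) ∧ ⋃₀ G n = univ) ∧
    ∀ y, (𝓝 y).HasBasis (fun _ : ℕ => True) fun n => ⋃₀ {U ∈ G n | y ∈ U}

theorem result : ∃ (X D Y : Type) (_ : TopologicalSpace X) (_ : TopologicalSpace D)
    (_ : TopologicalSpace Y), T35Space X ∧ T35Space D ∧ T35Space Y ∧ Developable D ∧
    (∃ g : X → D, Perfect g) ∧ (∃ f : X → Y, Perfect f) ∧
    ¬ ∃ (E : Type) (_ : TopologicalSpace E), Developable E ∧ ∃ h : Y → E, Perfect h := by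
  open Pool.Agent.Lib.helper4.PsiChain in
  refine ⟨S dX, S dD, S dY, inferInstance, inferInstance, inferInstance, inferInstance,
    inferInstance, inferInstance, develop,
    ⟨_, perfect dX dD Prod.fst Prod.fst continuous_fst isClosedMap_fst_of_compactSpace
      Prod.fst_surjective (fun y => ?_) Prod.fst_surjective (fun y => ?_) fun t k c => ?_⟩,
    ⟨_, perfect dX dY id (fun t => (t.1.1 + t.2.toNat, t.1.2)) continuous_id IsClosedMap.id
      Function.surjective_id (fun y => isCompact_singleton) (fun t => ⟨(t, false), rfl⟩)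
      (fun y => ?_) fun t k c => ?_⟩,
    fun ⟨E, _, ⟨G, _, hG⟩, h, a, b, c, d⟩ => no_perfect G hG h a b c d⟩
  · exact prod_univ ▸ (isCompact_singleton (x := y)).prod isCompact_univ
  · exact ((finite_singleton y).prod finite_univ).subset fun t h => ⟨h, trivial⟩
  · exact ⟨fun h => ⟨(t, (χ t.2 c).2), rfl, h, rfl⟩, fun ⟨s, a, b⟩ => a ▸ b.1⟩
  · refine (((finite_Iic y.1).prod (finite_singleton y.2)).prod finite_univ).subset ?_
    rintro t rfl
    exact ⟨⟨Nat.le_add_right _ _, rfl⟩, trivial⟩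
  · refine ⟨fun h => ⟨((c.1.1, t.2), (χ t.2 c).2), Prod.ext h.1 rfl, ⟨rfl, h.2⟩, rfl⟩, ?_⟩
    rintro ⟨s, rfl, ⟨a, b⟩, e⟩
    exact ⟨congrArg₂ (fun (x : ℕ) (y : Bool) => x + y.toNat) a e, b⟩

end Pool.Agent.Results.MP_5c431f_gt.NotPreimage
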